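import Pool.Agent.H59.L.S8.H176.DT.G3
import Pool.Agent.H59.L.S8.TH188.QS.Comp

/-!
# Adjoining the root of a unit whose residue is not a `p`-th power
-/

set_option autoImplicit false
set_option linter.unusedVariables false
set_option linter.unusedSectionVars false

universe u

namespace Pool.Agent.W5h94.WP

open IsLocalRing Pool.Agent.W418.LU2 Polynomial
open Pool.Agent.H176.DT (p_ext Full)

/-- The dimension does not decrease in integral extensions. -/
theorem dim_le_of_integral {R S : Type u} [CommRing R] [CommRing S] (f : R →+* S)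
    (hf : f.IsIntegral) (hinj : Function.Injective f) : ringKrullDim R ≤ ringKrullDim S := by
  let _ := f.toAlgebra
  have : Algebra.IsIntegral R S := ⟨hf⟩
  unfold ringKrullDim Order.krullDim
  refine iSup_le fun l => ?_
  obtain ⟨P, -, hP, hPl⟩ := Ideal.exists_ideal_over_prime_of_isIntegral
    (RelSeries.head l).asIdeal (⊥ : Ideal S) (by
      change Ideal.comap f ⊥ ≤ _
      rw [← RingHom.ker_eq_comap_bot, (RingHom.injective_iff_ker_eq_bot _).1 hinj]
      exact bot_le)
  have : P.LiesOver (RelSeries.head l).asIdeal := ⟨hPl.symm⟩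
  obtain ⟨L, hL, -, -⟩ := Ideal.exists_ltSeries_of_hasGoingUp l P
  rw [← hL]
  exact le_iSup (fun L : LTSeries (PrimeSpectrum S) => ((L.length : ℕ) : WithBot ℕ∞)) L

section field

variable {k : Type u} [Field k] (κ : Subfield k) {p : ℕ} (hp : p.Prime) {ω : k} {b : κ}
  (hω : ω ^ p = b) (hb : ∀ c : κ, c ^ p ≠ b)

include hω in
lemma eval_root : eval₂ κ.subtype ω (X ^ p - C b) = 0 := by
  rw [eval₂_sub, eval₂_X_pow, eval₂_C, hω]
  exact sub_self _

include hp hω hb in
lemma field_inv (f : κ[X]) (hf : eval₂ κ.subtype ω f ≠ 0) :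
    ∃ g : κ[X], eval₂ κ.subtype ω g * eval₂ κ.subtype ω f = 1 := by
  have hirr : Irreducible (X ^ p - C b) := X_pow_sub_C_irreducible_of_prime hp hb
  rcases hirr.isCoprime_or_dvd f with ⟨a, g, h⟩ | h
  · refine ⟨g, ?_⟩
    have h1 := congrArg (eval₂ κ.subtype ω) h
    rw [eval₂_add, eval₂_mul, eval₂_mul, eval_root κ hω, mul_zero, zero_add, eval₂_one] at h1
    exact h1
  · obtain ⟨g, rfl⟩ := h
    rw [eval₂_mul, eval_root κ hω, zero_mul] at hf
    exact absurd rfl hf

include hp hω hb in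
lemma field_zero (f : κ[X]) (hf : f.degree < p) (h0 : eval₂ κ.subtype ω f = 0) : f = 0 := by
  have hirr : Irreducible (X ^ p - C b) := X_pow_sub_C_irreducible_of_prime hp hb
  rcases hirr.isCoprime_or_dvd f with ⟨a, g, h⟩ | h
  · exfalso
    have h1 := congrArg (eval₂ κ.subtype ω) h
    rw [eval₂_add, eval₂_mul, eval₂_mul, eval_root κ hω, h0, mul_zero, mul_zero, zero_add,
      eval₂_one] at h1
    exact zero_ne_one h1
  · by_contra hf0
    have h1 := degree_le_of_dvd h hf0
    rw [degree_X_pow_sub_C hp.pos] at h1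
    exact absurd hf (not_lt.2 h1)

include hω in
lemma field_pow [CharP k p] [Fact p.Prime] (f : κ[X]) : (eval₂ κ.subtype ω f) ^ p ∈ κ := by
  rw [eval₂_eq_sum_range, sum_pow_char]
  refine sum_mem fun i _ => ?_
  rw [mul_pow, ← pow_mul, mul_comm i p, pow_mul, hω]
  exact mul_mem (pow_mem (f.coeff i).2 _) (pow_mem b.2 _)

end field

section step

variable {E F : Type u} [Field E] [Field F] [Algebra E F]

/-- Adjoining a `p`-th root of a unit whose residue is not a `p`-th power. -/
theorem insep_step (V : ValuationSubring F) (C : Subring E) {s : ℕ} (x : Fin s → E)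
    (hreg : RegP (V.comap (algebraMap E F)).toSubring
      (lo (V.comap (algebraMap E F)).toSubring C) x)
    (hx : ∀ i, (x i)⁻¹ ∉ (V.comap (algebraMap E F)).toSubring) {p : ℕ} (hp : p.Prime)
    (hpV : V.valuation (p : F) < 1) (ω : F) (u : E) (hu0 : u ≠ 0)
    (hu : u ∈ lo (V.comap (algebraMap E F)).toSubring C)
    (hu' : u⁻¹ ∈ lo (V.comap (algebraMap E F)).toSubring C) (hω : ω ^ p = algebraMap E F u)
    (hup : ∀ c ∈ lo (V.comap (algebraMap E F)).toSubring C,
      V.valuation (algebraMap E F (u - c ^ p)) = 1) :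
    RegP V.toSubring (lo V.toSubring (Subring.closure ((C.map (algebraMap E F) : Set F) ∪ {ω})))
      (fun i => algebraMap E F (x i)) ∧
    ∀ c ∈ lo V.toSubring (Subring.closure ((C.map (algebraMap E F) : Set F) ∪ {ω})),
      V.valuation (ω - c ^ p) = 1 := by
  classical
  have hfp : Fact p.Prime := ⟨hp⟩
  set φ := algebraMap E F with hφ
  set P : Subring E := lo (V.comap φ).toSubring C with hP
  have hregP := hreg.reg
  have hPV : ∀ z ∈ P, φ z ∈ V := fun z hz => hreg.PA hz
  have hCP : C ≤ P := le_lo _ _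
  have hφ0 : ∀ {z : E}, z ≠ 0 → φ z ≠ 0 := fun h => (_root_.map_ne_zero φ).2 h
  have hu1 : V.valuation (φ u) = 1 := by
    apply le_antisymm ((V.valuation_le_one_iff _).2 (hPV u hu))
    have h1 := (V.valuation_le_one_iff _).2 (hPV _ hu')
    rw [map_inv₀, map_inv₀] at h1
    exact (inv_le_one₀ (zero_lt_iff.2 ((_root_.map_ne_zero _).2 (hφ0 hu0)))).1 h1
  have hω1 : V.valuation ω = 1 := by
    have h1 : V.valuation ω ^ p = 1 := by rw [← map_pow, hω, hu1]
    exact (pow_eq_one_iff.1 h1).resolve_right hp.ne_zero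
  have hωV : ω ∈ V := (V.valuation_le_one_iff _).1 hω1.le
  -- the residue field
  have hz0 : ∀ z : V, residue V z = 0 ↔ V.valuation (z : F) < 1 := by
    intro z
    rw [residue_eq_zero_iff]
    exact V.valuation_lt_one_iff z
  have hpk : (p : ResidueField V) = 0 := by
    have h1 : (p : ResidueField V) = residue V (p : V) := (map_natCast _ _).symm
    rw [h1, hz0]
    exact_mod_cast hpV
  have hchar : CharP (ResidueField V) p := (CharP.charP_iff_prime_eq_zero hp).2 hpk
  let χ₀ : P →+* V := (φ.comp P.subtype).codRestrict V.toSubring fun z => hPV z z.2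
  let χ : P →+* ResidueField V := (residue V).comp χ₀
  have hχ0 : ∀ z : P, χ z = 0 ↔ V.valuation (φ z) < 1 := fun z => hz0 _
  let κ : Subfield (ResidueField V) :=
    { χ.range with
      inv_mem' := by
        rintro _ ⟨z, rfl⟩
        by_cases h : χ z = 0
        · rw [h, inv_zero]
          exact ⟨0, map_zero _⟩
        · have h1 : V.valuation (φ z) = 1 := by
            apply le_antisymm ((V.valuation_le_one_iff _).2 (hPV z z.2))
            by_contra h2
            exact h ((hχ0 z).2 (not_le.1 h2))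
          have hz : (z : E) ≠ 0 := by
            intro h2
            rw [h2, map_zero, map_zero] at h1
            exact zero_ne_one h1
          have h2 : (z : E)⁻¹ ∈ P := by
            refine hreg.inv _ z.2 hz ?_
            change φ (z : E)⁻¹ ∈ V
            rw [map_inv₀, ← V.valuation_le_one_iff, map_inv₀, h1, inv_one]
          refine ⟨⟨_, h2⟩, ?_⟩
          refine eq_inv_of_mul_eq_one_left ?_
          rw [← map_mul, ← map_one χ]
          congr 1
          exact Subtype.ext (inv_mul_cancel₀ hz) }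
  let χ' : P →+* κ := χ.codRestrict κ fun z => ⟨z, rfl⟩
  have hχ's : Function.Surjective χ' := by
    rintro ⟨_, z, rfl⟩
    exact ⟨z, rfl⟩
  let b : κ := χ' ⟨u, hu⟩
  let ωb : ResidueField V := residue V ⟨ω, hωV⟩
  have hωb : ωb ^ p = b := by
    change residue V ⟨ω, hωV⟩ ^ p = residue V (χ₀ ⟨u, hu⟩)
    rw [← map_pow]
    congr 1
    exact Subtype.ext hω
  have hb : ∀ c : κ, c ^ p ≠ b := by
    intro c hc
    obtain ⟨z, rfl⟩ := hχ's c
    have h1 : χ (⟨u, hu⟩ - z ^ p) = 0 := by
      rw [map_sub, map_pow, sub_eq_zero]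
      exact (congrArg Subtype.val hc).symm
    rw [hχ0] at h1
    exact absurd (hup _ z.2) h1.ne
  -- the polynomials
  let Ψ : P[X] →+* V := eval₂RingHom χ₀ ⟨ω, hωV⟩
  have hΨ : ∀ f : P[X], ((Ψ f : V) : F) = eval₂ (φ.comp P.subtype) ω f := by
    intro f
    exact hom_eval₂ f χ₀ V.subtype ⟨ω, hωV⟩
  have hΨr : ∀ f : P[X], residue V (Ψ f) = eval₂ κ.subtype ωb (f.map χ') := by
    intro f
    rw [eval₂_map]
    exact hom_eval₂ f χ₀ (residue V) ⟨ω, hωV⟩
  let g : P[X] := X ^ p - Polynomial.C ⟨u, hu⟩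
  have hgm : g.Monic := monic_X_pow_sub_C _ hp.ne_zero
  have hΨg : Ψ g = 0 := by
    apply Subtype.ext
    rw [hΨ]
    change eval₂ (φ.comp P.subtype) ω (X ^ p - Polynomial.C ⟨u, hu⟩) = 0
    rw [eval₂_sub, eval₂_X_pow, eval₂_C, hω]
    exact sub_self _
  set B : Subring F := Subring.closure ((P.map φ : Set F) ∪ {ω}) with hB
  have hPB : ∀ z ∈ P, φ z ∈ B := fun z hz => Subring.subset_closure (Or.inl ⟨z, hz, rfl⟩)
  have hωB : ω ∈ B := Subring.subset_closure (Or.inr rfl)
  have hΨB : ∀ f : P[X], ((Ψ f : V) : F) ∈ B := by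
    intro f
    rw [hΨ, eval₂_eq_sum_range]
    exact sum_mem fun i _ => mul_mem (hPB _ (f.coeff i).2) (pow_mem hωB _)
  have hBΨ : ∀ z ∈ B, ∃ f : P[X], ((Ψ f : V) : F) = z := by
    have h1 : B ≤ (V.subtype.comp Ψ).range := by
      rw [hB, Subring.closure_le]
      rintro z (⟨a, ha, rfl⟩ | hz)
      · refine ⟨Polynomial.C ⟨a, ha⟩, ?_⟩
        change ((Ψ (Polynomial.C ⟨a, ha⟩) : V) : F) = φ a
        rw [hΨ, eval₂_C]
        rfl
      · refine ⟨X, ?_⟩
        change ((Ψ X : V) : F) = z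
        rw [hΨ, eval₂_X, Set.mem_singleton_iff.1 hz]
    intro z hz
    exact h1 hz
  have hBV : B ≤ V.toSubring := by
    intro z hz
    obtain ⟨f, rfl⟩ := hBΨ z hz
    exact (Ψ f).2
  -- small elements
  have hsmall : ∀ z ∈ B, V.valuation z < 1 → ∃ f : P[X], (∀ i, χ (f.coeff i) = 0) ∧
      ((Ψ f : V) : F) = z := by
    intro z hz hz1
    obtain ⟨f, rfl⟩ := hBΨ z hz
    have h1 : Ψ (f %ₘ g) = Ψ f := eval₂_modByMonic_eq_self_of_root hΨg
    refine ⟨f %ₘ g, fun i => ?_, by rw [h1]⟩
    have h2 : residue V (Ψ (f %ₘ g)) = 0 := by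
      rw [h1, hz0]
      exact hz1
    rw [hΨr] at h2
    have h3 := field_zero κ hp hωb hb _ (by
      refine (degree_map_le).trans_lt ?_
      refine (degree_modByMonic_lt f hgm).trans_eq ?_
      exact degree_X_pow_sub_C hp.pos _) h2
    have h4 := congrArg (fun q : κ[X] => ((q.coeff i : κ) : ResidueField V)) h3
    simp only [coeff_map, coeff_zero] at h4
    exact h4
  -- the algebra `B` over `P`
  let ι : P →+* B := (φ.comp P.subtype).codRestrict B fun z => hPB z z.2
  let ωB : B := ⟨ω, hωB⟩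
  have hsum : ∀ f : P[X], ((Ψ f : V) : F) = ((eval₂ ι ωB f : B) : F) := by
    intro f
    rw [hΨ]
    exact (hom_eval₂ f ι B.subtype ωB).symm
  have hint : ι.IsIntegral := by
    intro z
    let _ := ι.toAlgebra
    have h1 : IsIntegral P ωB := by
      refine ⟨g, hgm, ?_⟩
      apply Subtype.ext
      change ((eval₂ ι ωB g : B) : F) = 0
      rw [← hsum, hΨg]
      rfl
    obtain ⟨f, hf⟩ := hBΨ z z.2
    have h2 : z = aeval ωB f := by
      apply Subtype.ext
      rw [← hf, hsum]
      rfl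
    rw [h2]
    exact (adjoin_le_integralClosure h1 (aeval_mem_adjoin_singleton P ωB))
  have hιinj : Function.Injective ι := by
    intro a b hab
    apply Subtype.ext
    exact φ.injective (congrArg Subtype.val hab)
  have hmP : ∀ z : P, z ∈ maximalIdeal P ↔ χ z = 0 := by
    intro z
    rw [hreg.mem_max, hχ0]
    constructor
    · intro h
      by_contra h1
      have h2 : V.valuation (φ z) = 1 :=
        le_antisymm ((V.valuation_le_one_iff _).2 (hPV z z.2)) (not_lt.1 h1)
      refine h ⟨?_, ?_⟩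
      · intro h3
        rw [h3, map_zero, map_zero] at h2
        exact zero_ne_one h2
      · change φ (z : E)⁻¹ ∈ V
        rw [map_inv₀, ← V.valuation_le_one_iff, map_inv₀, h2, inv_one]
    · rintro h ⟨h1, h2⟩
      have h3 : V.valuation (φ (z : E)⁻¹) ≤ 1 := (V.valuation_le_one_iff _).2 h2
      rw [map_inv₀, map_inv₀] at h3
      exact absurd h (not_lt.2 ((inv_le_one₀ (zero_lt_iff.2
        ((_root_.map_ne_zero _).2 (hφ0 h1)))).1 h3))
  have hsmall' : ∀ z : B, V.valuation (z : F) < 1 →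
      z ∈ (maximalIdeal P).map ι := by
    intro z hz
    obtain ⟨f, hf, hfz⟩ := hsmall z z.2 hz
    have h1 : z = eval₂ ι ωB f := by
      apply Subtype.ext
      rw [← hfz, hsum]
    rw [h1, eval₂_eq_sum_range]
    refine Ideal.sum_mem _ fun i _ => Ideal.mul_mem_right _ _ (Ideal.mem_map_of_mem _ ?_)
    exact (hmP _).2 (hf i)
  have hjac : ∀ y : B, V.valuation (y : F) < 1 → IsUnit (1 + y) := by
    intro y hy
    by_contra hu
    obtain ⟨𝔫, h𝔫, hmem⟩ := exists_max_ideal_of_mem_nonunits hu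
    have h1 : (𝔫.comap ι).IsMaximal := Ideal.isMaximal_comap_of_isIntegral_of_isMaximal' ι hint 𝔫
    have h2 : 𝔫.comap ι = maximalIdeal P := IsLocalRing.eq_maximalIdeal h1
    have h3 : (maximalIdeal P).map ι ≤ 𝔫 := by
      rw [Ideal.map_le_iff_le_comap, h2]
    have h4 : (1 : B) ∈ 𝔫 := by
      have h5 := 𝔫.sub_mem hmem (h3 (hsmall' y hy))
      rwa [add_sub_cancel_right] at h5
    exact h𝔫.ne_top ((Ideal.eq_top_iff_one _).2 h4)
  have hinv : ∀ z ∈ B, z ≠ 0 → z⁻¹ ∈ V.toSubring → z⁻¹ ∈ B := by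
    intro z hz h0 h1
    obtain ⟨f, hf⟩ := hBΨ z hz
    have h2 : residue V (Ψ f) ≠ 0 := by
      rw [Ne, hz0, hf, not_lt]
      have h3 := (V.valuation_le_one_iff _).2 h1
      rw [map_inv₀] at h3
      exact (inv_le_one₀ (zero_lt_iff.2 ((_root_.map_ne_zero _).2 h0))).1 h3
    rw [hΨr] at h2
    obtain ⟨q, hq⟩ := field_inv κ hp hωb hb _ h2
    obtain ⟨q', rfl⟩ := map_surjective χ' hχ's q
    rw [← hΨr, ← hΨr, ← map_mul] at hq
    let y : B := ⟨_, hΨB (q' * f)⟩ - 1
    have hy : V.valuation (y : F) < 1 := by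
      have h3 : residue V (Ψ (q' * f) - 1) = 0 := by
        rw [map_sub, map_one, map_mul Ψ, hq, sub_self]
      exact (hz0 _).1 h3
    obtain ⟨e, he⟩ := isUnit_iff_exists_inv.1 (hjac y hy)
    have h4 : ((Ψ q' : V) : F) * z * (e : F) = 1 := by
      have h5 := congrArg Subtype.val he
      change (1 + (((Ψ (q' * f) : V) : F) - 1)) * (e : F) = 1 at h5
      rw [add_sub_cancel, map_mul] at h5
      change ((Ψ q' : V) : F) * ((Ψ f : V) : F) * (e : F) = 1 at h5
      rw [hf] at h5
      exact h5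
    have h6 : z⁻¹ = ((Ψ q' : V) : F) * (e : F) := by
      refine (eq_inv_of_mul_eq_one_left ?_).symm
      rw [← h4]
      ring
    rw [h6]
    exact B.mul_mem (hΨB q') e.2
  -- `B` is the local ring
  have hCB : Subring.closure ((C.map φ : Set F) ∪ {ω}) ≤ B := by
    rw [Subring.closure_le]
    rintro z (⟨a, ha, rfl⟩ | hz)
    · exact hPB a (hCP ha)
    · rw [Set.mem_singleton_iff.1 hz]
      exact hωB
  have hCV : Subring.closure ((C.map φ : Set F) ∪ {ω}) ≤ V.toSubring := hCB.trans hBV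
  have hloB : lo V.toSubring (Subring.closure ((C.map φ : Set F) ∪ {ω})) = B := by
    apply le_antisymm
    · rintro _ ⟨a, ha, b, hb, hb0, hbV, rfl⟩
      exact B.mul_mem (hCB ha) (hinv b (hCB hb) hb0 hbV)
    · rw [hB, Subring.closure_le]
      rintro z (⟨_, ⟨a, ha, b, hb, hb0, hbV, rfl⟩, rfl⟩ | hz)
      · refine ⟨φ a, Subring.subset_closure (Or.inl ⟨a, ha, rfl⟩), φ b,
          Subring.subset_closure (Or.inl ⟨b, hb, rfl⟩), hφ0 hb0, ?_, ?_⟩
        · rw [← map_inv₀]
          exact hbV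
        · rw [map_mul, map_inv₀]
      · rw [Set.mem_singleton_iff.1 hz]
        exact le_lo _ _ (Subring.subset_closure (Or.inr rfl))
  have hlocB : IsLocalRing B := by
    rw [← hloB]
    exact isLocalRing_lo (loc_V V) hCV
  have hnoeB : IsNoetherianRing B := by
    refine isNoetherianRing_of_surjective P[X] B (eval₂RingHom ι ωB) ?_
    intro z
    obtain ⟨f, hf⟩ := hBΨ z z.2
    refine ⟨f, Subtype.ext ?_⟩
    rw [← hf, hsum]
    rfl
  rw [hloB]
  have hunit : ∀ z : B, IsUnit z ↔ (z : F) ≠ 0 ∧ (z : F)⁻¹ ∈ V.toSubring := by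
    intro z
    constructor
    · intro h
      obtain ⟨y, hy⟩ := isUnit_iff_exists_inv.1 h
      have h1 : (z : F) * y = 1 := congrArg Subtype.val hy
      have h2 : (z : F) ≠ 0 := left_ne_zero_of_mul_eq_one h1
      refine ⟨h2, ?_⟩
      rw [← eq_inv_of_mul_eq_one_right h1]
      exact hBV y.2
    · rintro ⟨h0, h1⟩
      exact isUnit_iff_exists_inv.2 ⟨⟨_, hinv z z.2 h0 h1⟩, Subtype.ext (mul_inv_cancel₀ h0)⟩
  have hmaxB : ∀ z : B, z ∈ maximalIdeal B ↔ V.valuation (z : F) < 1 := by
    intro z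
    rw [mem_maximalIdeal, mem_nonunits_iff, hunit]
    exact Pool.Agent.TH188.QS.nu_iff
  obtain ⟨m, w, hF⟩ := p_ext hreg hx
  have hspanP : Ideal.span (Set.range fun i => (⟨Sum.elim x w i, hF.mem i⟩ : P)) =
      maximalIdeal P := hF.span
  let Y : Fin s ⊕ Fin m → B := fun i => ι ⟨Sum.elim x w i, hF.mem i⟩
  have hspan : Ideal.span (Set.range Y) = maximalIdeal B := by
    have h1 : Set.range Y = ι '' Set.range fun i => (⟨Sum.elim x w i, hF.mem i⟩ : P) := by
      rw [← Set.range_comp]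
      rfl
    rw [h1, ← Ideal.map_span, hspanP]
    apply le_antisymm
    · rw [Ideal.map_le_iff_le_comap]
      intro z hz
      rw [Ideal.mem_comap, hmaxB]
      exact (hχ0 z).1 ((hmP z).1 hz)
    · intro z hz
      exact hsmall' z ((hmaxB z).1 hz)
  have hdim : ((Fintype.card (Fin s ⊕ Fin m) : ℕ) : WithBot ℕ∞) ≤ ringKrullDim B := by
    exact hF.dim.ge.trans (dim_le_of_integral ι hint hιinj)
  have hregB : IsRegularLocalRing B := by
    apply IsRegularLocalRing.of_spanFinrank_maximalIdeal_le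
    refine le_trans ?_ hdim
    rw [← hspan]
    have e1 := Submodule.spanFinrank_span_le_ncard_of_finite (R := B) (Set.finite_range Y)
    have e2 : (Set.range Y).ncard ≤ Fintype.card (Fin s ⊕ Fin m) := by
      rw [← Set.image_univ]
      refine (Set.ncard_image_le (Set.finite_univ)).trans ?_
      rw [Set.ncard_univ, Nat.card_eq_fintype_card]
    exact_mod_cast e1.trans e2
  have hInd : Ind Y := ind_of_span hspan hdim
  have hIndx : Ind (fun i : Fin s => Y (Sum.inl i)) :=
    hInd.comp (fun i : Fin s => (Sum.inl i : Fin s ⊕ Fin m)) Sum.inl_injective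
  refine ⟨{ PA := hBV
            ne := fun i => hφ0 (hreg.ne i)
            mem := fun i => hPB _ (hreg.mem i)
            reg := hregB
            inv := hinv
            ind := IndN.of_ind id Function.injective_id (fun i _ => ⟨i, rfl⟩) hIndx }, ?_⟩
  intro c hc
  by_contra hcon
  have h1 : ω - c ^ p ∈ V := V.sub_mem hωV (V.pow_mem (hBV hc) p)
  have h2 : V.valuation (ω - c ^ p) < 1 :=
    lt_of_le_of_ne ((V.valuation_le_one_iff _).2 h1) hcon
  obtain ⟨f, hf⟩ := hBΨ c hc
  have h3 : ωb = (residue V (Ψ f)) ^ p := by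
    have h4 : residue V (⟨ω, hωV⟩ - (Ψ f) ^ p) = 0 := by
      rw [hz0]
      change V.valuation (ω - ((Ψ f : V) : F) ^ p) < 1
      rw [hf]
      exact h2
    rw [map_sub, map_pow, sub_eq_zero] at h4
    exact h4
  have h5 : ωb ∈ κ := by
    rw [h3, hΨr]
    exact field_pow κ hωb _
  exact hb ⟨ωb, h5⟩ (Subtype.ext hωb)

end step

end Pool.Agent.W5h94.WP
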