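import Pool.Agent.H59.L.T66d723.W5h94.WP.Root
import Pool.Agent.H59.L.T66d723.W5h94.SP.Semi8

/-!
# Semistable models, wild case
-/

set_option autoImplicit false
set_option linter.unusedVariables false
set_option linter.unusedSectionVars false

universe u

namespace Pool.Agent.W5h94.WP

open Pool.Agent.W418.LU2 Pool.Agent.H176.DT IsLocalRing Polynomial
open Pool.Agent.W5h94.HR (comb7)
open Pool.Agent.W5h94.SP (vlt)

section core

variable {K K1 K' : Type u} [Field K] [Field K1] [Field K'] [Algebra K K1] [Algebra K1 K']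
  [Algebra K K']

theorem ss_core9 (htor : S6_tor.{u})
    (hcomm : ∀ z : K, algebraMap K1 K' (algebraMap K K1 z) = algebraMap K K' z)
    (V : ValuationSubring K') (C : Subring K) (hC : C ≤ (V.comap (algebraMap K K')).toSubring)
    (hCK : ∀ a : K, ∃ b ∈ C, b ≠ 0 ∧ a * b ∈ C) {s : ℕ} (x : Fin s → K)
    (hreg : RegP (V.comap (algebraMap K K')).toSubring
      (lo (V.comap (algebraMap K K')).toSubring C) x)
    (hx : ∀ i, (x i)⁻¹ ∉ V.comap (algebraMap K K')) (ω : K1)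
    (hω : ∀ z : K1, ∃ g : K[X], aeval ω g = z) (d : ℕ) (hd : 0 < d) (u : K) (hu0 : u ≠ 0)
    (hu : u ∈ lo (V.comap (algebraMap K K')).toSubring C)
    (hu' : u⁻¹ ∈ lo (V.comap (algebraMap K K')).toSubring C) (hωd : ω ^ d = algebraMap K K1 u)
    (hdV : ∀ p : ℕ, p.Prime → p ∣ d → V.valuation (p : K') < 1 →
      ∀ e ∈ lo (V.comap (algebraMap K K')).toSubring C,
        V.valuation (algebraMap K K' (u - e ^ p)) = 1)
    (c : Fin s → ℤ) (m : Fin s → K') (A : Fin s → Fin s → ℕ)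
    (hm0 : ∀ j, m j ≠ 0) (hmV : ∀ j, m j ∈ V) (hmV' : ∀ j, (m j)⁻¹ ∉ V)
    (hxm : ∀ i, algebraMap K K' (x i) * (algebraMap K1 K' ω) ^ (c i) = ∏ j, m j ^ A i j)
    (hA : ∀ i, ∃ j, A i j ≠ 0)
    (hgen : ∀ z : K', z ∈ Subfield.closure (Set.range (algebraMap K1 K') ∪ Set.range m))
    (halg : Algebra.IsAlgebraic K1 K') :
    RegP V.toSubring (lo V.toSubring (Subring.closure ((C.map (algebraMap K K') : Set K') ∪
      ({algebraMap K1 K' ω} ∪ Set.range m)))) m := by
  have hV : (V.comap (algebraMap K1 K')).comap (algebraMap K K1) = V.comap (algebraMap K K') := by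
    ext z
    change algebraMap K1 K' (algebraMap K K1 z) ∈ V ↔ algebraMap K K' z ∈ V
    rw [hcomm]
  have hω0 : ω ≠ 0 := by
    rintro rfl
    rw [zero_pow hd.ne'] at hωd
    exact hu0 ((map_eq_zero (algebraMap K K1)).1 hωd.symm)
  have hωV : (V.comap (algebraMap K1 K')).valuation ω = 1 := by
    have h1 : (V.comap (algebraMap K1 K')).valuation ω ^ d = 1 := by
      rw [← map_pow, hωd, comap_one, hcomm, ← comap_one]
      exact (val_one_iff _ _).2 ⟨hu0, hreg.PA hu, hreg.PA hu'⟩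
    exact (pow_eq_one_iff.1 h1).resolve_right hd.ne'
  rw [← hV] at hC hreg hu hu' hdV
  have h1 := rs_all d hd (V.comap (algebraMap K1 K')) C hC hCK x hreg (fun i h => hx i (by
    rw [← hV]
    exact h)) ω u hu0 hu hu' hωd (fun p hp hpd hpV e he => by
      rw [comap_one, hcomm]
      refine hdV p hp hpd ?_ e he
      rw [comap_lt, map_natCast] at hpV
      exact hpV) hω
  set C1 : Subring K1 := Subring.closure ((C.map (algebraMap K K1) : Set K1) ∪ {ω}) with hC1
  have hC1V : C1 ≤ (V.comap (algebraMap K1 K')).toSubring := (le_lo _ _).trans h1.PA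
  have hωP : ω ∈ lo (V.comap (algebraMap K1 K')).toSubring C1 :=
    le_lo _ _ (Subring.subset_closure (Or.inr rfl))
  have hωP' : ω⁻¹ ∈ lo (V.comap (algebraMap K1 K')).toSubring C1 :=
    inv_mem_lo hC1V hωP hω0 ((val_one_iff _ _).1 hωV).2.2
  have h2 := regP_unit h1 (fun i => ω ^ c i) (fun i => zpow_ne_zero _ hω0)
    (fun i => zpow_unit hωP hωP' _) (fun i => zpow_unit' hωP hωP' _)
  have hfr : ∀ a : K1, ∃ b ∈ C1, b ≠ 0 ∧ a * b ∈ C1 := by
    intro a
    obtain ⟨g, rfl⟩ := hω a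
    have hωfr : ω ∈ fr C1 := le_fr _ (Subring.subset_closure (Or.inr rfl))
    have h3 : aeval ω g ∈ fr C1 := by
      rw [aeval_eq_sum_range]
      refine sum_mem fun i _ => ?_
      rw [Algebra.smul_def]
      refine mul_mem ?_ (pow_mem hωfr _)
      obtain ⟨b, hb, hb0, hab⟩ := hCK (g.coeff i)
      have h4 : algebraMap K K1 (g.coeff i) = algebraMap K K1 (g.coeff i * b) *
          (algebraMap K K1 b)⁻¹ := by
        rw [map_mul, mul_assoc, mul_inv_cancel₀ ((_root_.map_ne_zero _).2 hb0), mul_one]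
      rw [h4]
      exact mul_mem (le_fr _ (Subring.subset_closure (Or.inl ⟨_, hab, rfl⟩)))
        (inv_mem (le_fr _ (Subring.subset_closure (Or.inl ⟨_, hb, rfl⟩))))
    exact h3
  have h3 := htor V C1 hC1V hfr (fun i => algebraMap K K1 (x i) * ω ^ c i) h2 (fun i h => by
    have h4 := (V.comap (algebraMap K1 K')).toSubring.mul_mem h (h1.PA (zpow_unit hωP hωP' (c i)))
    rw [mul_inv, mul_assoc, inv_mul_cancel₀ (zpow_ne_zero _ hω0), mul_one, ← map_inv₀] at h4
    refine hx i ?_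
    rw [← hV]
    exact h4) m A hm0 hmV hmV' (fun i => by
      rw [map_mul, map_zpow₀, hcomm]
      exact hxm i) hA hgen halg
  have h4 : Subring.closure ((C1.map (algebraMap K1 K') : Set K') ∪ Set.range m) =
      Subring.closure ((C.map (algebraMap K K') : Set K') ∪
        ({algebraMap K1 K' ω} ∪ Set.range m)) := by
    have h5 : C1 ≤ (Subring.closure ((C.map (algebraMap K K') : Set K') ∪
        ({algebraMap K1 K' ω} ∪ Set.range m))).comap (algebraMap K1 K') := by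
      rw [hC1, Subring.closure_le]
      rintro z (⟨a, ha, rfl⟩ | rfl)
      · change algebraMap K1 K' (algebraMap K K1 a) ∈ Subring.closure
          ((C.map (algebraMap K K') : Set K') ∪ ({algebraMap K1 K' ω} ∪ Set.range m))
        rw [hcomm]
        exact Subring.subset_closure (Or.inl ⟨a, ha, rfl⟩)
      · exact Subring.subset_closure (Or.inr (Or.inl rfl))
    apply le_antisymm
    · rw [Subring.closure_le]
      rintro z (⟨a, ha, rfl⟩ | hz)
      · exact h5 ha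
      · exact Subring.subset_closure (Or.inr (Or.inr hz))
    · rw [Subring.closure_le]
      rintro z (⟨a, ha, rfl⟩ | hz | hz)
      · rw [← hcomm]
        exact Subring.subset_closure (Or.inl ⟨_, Subring.subset_closure (Or.inl ⟨a, ha, rfl⟩), rfl⟩)
      · rw [Set.mem_singleton_iff.1 hz]
        exact Subring.subset_closure (Or.inl ⟨_, Subring.subset_closure (Or.inr rfl), rfl⟩)
      · exact Subring.subset_closure (Or.inr hz)
  rw [h4] at h3
  exact h3

theorem ss_reg9 (htor : S6_tor.{u})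
    (V : ValuationSubring K') (C : Subring K) (hC : C ≤ (V.comap (algebraMap K K')).toSubring)
    (hCK : ∀ a : K, ∃ b ∈ C, b ≠ 0 ∧ a * b ∈ C) {s : ℕ} (x : Fin s → K)
    (hreg : RegP (V.comap (algebraMap K K')).toSubring
      (lo (V.comap (algebraMap K K')).toSubring C) x)
    (hx : ∀ i, (x i)⁻¹ ∉ V.comap (algebraMap K K')) (ω : K') (d : ℕ) (hd : 0 < d) (u : K)
    (hu0 : u ≠ 0) (hu : u ∈ lo (V.comap (algebraMap K K')).toSubring C)
    (hu' : u⁻¹ ∈ lo (V.comap (algebraMap K K')).toSubring C) (hωd : ω ^ d = algebraMap K K' u)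
    (hdV : ∀ p : ℕ, p.Prime → p ∣ d → V.valuation (p : K') < 1 →
      ∀ e ∈ lo (V.comap (algebraMap K K')).toSubring C,
        V.valuation (algebraMap K K' (u - e ^ p)) = 1)
    (c : Fin s → ℤ) (m : Fin s → K') (A : Fin s → Fin s → ℕ)
    (hm0 : ∀ j, m j ≠ 0) (hmV : ∀ j, m j ∈ V) (hmV' : ∀ j, (m j)⁻¹ ∉ V)
    (hxm : ∀ i, algebraMap K K' (x i) * ω ^ (c i) = ∏ j, m j ^ A i j)
    (hA : ∀ i, ∃ j, A i j ≠ 0)
    (hgen : ∀ z : K', z ∈ Subfield.closure (Set.range (algebraMap K K') ∪ Set.range m))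
    (halg : Algebra.IsAlgebraic K K') :
    RegP V.toSubring (lo V.toSubring (Subring.closure ((C.map (algebraMap K K') : Set K') ∪
      ({ω} ∪ Set.range m)))) m := by
  have hmon : (X ^ d - Polynomial.C u : K[X]).Monic := monic_X_pow_sub_C u hd.ne'
  have hroot : eval₂ (algebraMap K K') ω (X ^ d - Polynomial.C u : K[X]) = 0 := by
    rw [eval₂_sub, eval₂_X_pow, eval₂_C, hωd, sub_self]
  have hpoly := Ad_poly (algebraMap K K') ω _ hmon hroot
  have halg1 : @Algebra.IsAlgebraic (Ad (algebraMap K K') ω) K' _ _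
      (Ad (algebraMap K K') ω).subtype.toAlgebra := by
    letI a1 : Algebra K (Ad (algebraMap K K') ω) := (toAd (algebraMap K K') ω).toAlgebra
    letI a2 : Algebra (Ad (algebraMap K K') ω) K' := (Ad (algebraMap K K') ω).subtype.toAlgebra
    haveI a3 : @IsScalarTower K (Ad (algebraMap K K') ω) K' a1.toSMul a2.toSMul _ :=
      @IsScalarTower.of_algebraMap_eq K (Ad (algebraMap K K') ω) K' _ _ _ a1 a2 _ fun _ => rfl
    exact @Algebra.IsAlgebraic.tower_top K (Ad (algebraMap K K') ω) K' _ _ _ a1 a2 _ a3 halg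
  exact @ss_core9 K (Ad (algebraMap K K') ω) K' _ _ _ (toAd (algebraMap K K') ω).toAlgebra
    (Ad (algebraMap K K') ω).subtype.toAlgebra _ htor (fun z => rfl) V C hC hCK s x hreg hx
    (zAd (algebraMap K K') ω) hpoly d hd u hu0 hu hu' (Subtype.ext hωd) hdV c m A hm0 hmV hmV' hxm
    hA (fun z => Subfield.closure_mono (Set.union_subset_union_left _ (by
      rintro _ ⟨w, rfl⟩
      exact ⟨toAd (algebraMap K K') ω w, rfl⟩)) (hgen z)) halg1

end core

section main

variable {K : Type u} [Field K]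

/-- The stage over the ramified extension. -/
theorem ss_stage9 (V : ValuationSubring K) (O : Subring K) (hO : ∀ a ∈ O, a ∈ V) {W : Set K}
    (hWf : W.Finite) {w : K} (hw : w ∈ W) (hw0 : w ≠ 0) (hwV : ∀ z ∈ W, z / w ∈ V)
    (hM : Mod V (ch O W w)) (π : K) (hπ0 : π ≠ 0) (hπ1 : V.valuation π < 1)
    {T : Set K} {s : ℕ} {x : Fin s → K} (hSt : St V (ch O W w) T x) (hxV : ∀ i, (x i)⁻¹ ∉ V)
    (hind : ∀ δ : Fin s → ℤ, V.valuation (mo x δ) = 1 → δ = 0)
    (hmon : PMon (PP V (ch O W w) T) x π)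
    (htn : ∀ i, ∃ n : ℕ, V.valuation π ^ n ≤ V.valuation (x i))
    (hdiv : ∀ q : ℕ, q.Prime → V.valuation (q : K) < 1 → ∀ a ∈ PP V (ch O W w) T,
      ∀ δ : Fin s → ℤ, V.valuation π ≤ V.valuation (π - (a * mo x δ) ^ q)) :
    ∃ (D N₀ : ℕ) (cc : Fin s → ℤ), 0 < D ∧
      (∀ n : ℤ, V.valuation π ≤ V.valuation (π / mo x cc ^ D) ^ n) ∧ ∀ N : ℕ, N₀ ≤ N → D ∣ N →
      ∀ {K' : Type u} [Field K'] [Algebra K K'] (V' : ValuationSubring K') (ϖ : K'),
      V'.comap (algebraMap K K') = V → ϖ ^ N = algebraMap K K' π →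
      (∀ z : K', z ∈ Subfield.closure (Set.range (algebraMap K K') ∪ {ϖ})) →
      ∃ (T' : Set K') (s' : ℕ) (m : Fin s' → K'), 0 < s' ∧
        St V' (ch (Orm O ϖ) (algebraMap K K' '' W) (algebraMap K K' w)) T' m ∧
        (∀ j, (m j)⁻¹ ∉ V') ∧ ∏ j, m j = ϖ := by
  classical
  obtain ⟨u, hu0, hu1, hu2, γ, hγ⟩ := hmon
  have hx0 := hSt.reg.ne
  have hPV : PP V (ch O W w) T ≤ V.toSubring := hSt.reg.PA
  have hvu : V.valuation u = 1 := (val_one_iff _ u).2 ⟨hu0, hPV hu1, hPV hu2⟩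
  have hvx : ∀ i, V.valuation (x i) < 1 := fun i =>
    vlt (hPV (hSt.reg.mem i)) (hxV i)
  have hvγ : V.valuation (mo x γ) = V.valuation π := by rw [hγ, map_mul, hvu, one_mul]
  have hγ0' : γ ≠ 0 := by
    rintro rfl
    rw [mo_zero, map_one] at hvγ
    rw [← hvγ] at hπ1
    exact lt_irrefl _ hπ1
  obtain ⟨d, γ0, c, hd, hγd, hc⟩ := exists_content γ hγ0'
  have hmoγ : mo x γ = mo x γ0 ^ d := by
    have h1 : γ = (d : ℤ) • γ0 := funext fun i => hγd i
    rw [h1, Pool.Agent.Y67.DT.mo_zsmul, zpow_natCast]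
  have hvd : ∀ q : ℕ, q.Prime → q ∣ d → V.valuation (q : K) < 1 →
      ∀ a ∈ PP V (ch O W w) T, V.valuation (u - a ^ q) = 1 := by
    rintro q hq ⟨e, he⟩ hq1 a ha
    have h1 := hdiv q hq hq1 a ha ((e : ℤ) • γ0)
    have h2 : π - (a * mo x ((e : ℤ) • γ0)) ^ q = (u - a ^ q) * mo x γ := by
      rw [Pool.Agent.Y67.DT.mo_zsmul, zpow_natCast, mul_pow, ← pow_mul, mul_comm e q, ← he,
        ← hmoγ, hγ]
      ring
    rw [h2, map_mul, hvγ] at h1
    have h3 : V.valuation (u - a ^ q) ≤ 1 := (V.valuation_le_one_iff _).2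
      (V.sub_mem (hPV hu1) (V.pow_mem (hPV ha) q))
    refine le_antisymm h3 ?_
    by_contra hcon
    have h4 : V.valuation (u - a ^ q) * V.valuation π < V.valuation π :=
      mul_lt_of_lt_one_left (zero_lt_iff.2 ((_root_.map_ne_zero _).2 hπ0)) (not_le.1 hcon)
    exact absurd h1 (not_le.2 h4)
  have hlt : V.valuation (mo x γ0) < 1 := by
    by_contra hcon
    push Not at hcon
    have h1 : 1 ≤ V.valuation (mo x γ0) ^ d := one_le_pow₀ hcon
    rw [← map_pow, ← hmoγ, hvγ] at h1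
    exact absurd hπ1 (not_lt.2 h1)
  obtain ⟨D1, N1, c1, hD1, hc1, hN1⟩ := comb7 V x hx0 hvx hind γ0 ⟨c, hc⟩ hlt (fun i => by
    obtain ⟨n, hn⟩ := htn i
    refine ⟨d * n, ?_⟩
    rw [pow_mul, ← map_pow, ← hmoγ, hvγ]
    exact hn)
  refine ⟨d * D1, d * (N1 + 1), c1, Nat.mul_pos hd hD1, fun n => ?_, ?_⟩
  · have h1 := pow_le_pow_left₀ zero_le (hc1 n) d
    have h2 : V.valuation (mo x γ0) ^ d = V.valuation π := by rw [← map_pow, ← hmoγ, hvγ]
    rw [h2] at h1
    refine h1.trans_eq ?_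
    have h3 : V.valuation (π / mo x c1 ^ (d * D1)) =
        V.valuation (mo x γ0 / mo x c1 ^ D1) ^ d := by
      rw [map_div₀, ← h2, map_div₀, div_pow, map_pow, map_pow, ← pow_mul, mul_comm D1 d]
    rw [h3]
    generalize V.valuation (mo x γ0 / mo x c1 ^ D1) = a
    rw [← zpow_natCast (a ^ n) d, ← zpow_mul, ← zpow_natCast a d, ← zpow_mul, mul_comm n]
  rintro N hN hDN K' _ _ V' ϖ hV' hϖ hgen
  obtain ⟨M, rfl⟩ : d ∣ N := (Dvd.intro _ rfl).trans hDN
  have hDM : D1 ∣ M := Nat.dvd_of_mul_dvd_mul_left hd hDN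
  have hM1 : N1 + 1 ≤ M := Nat.le_of_mul_le_mul_left hN hd
  have hM0 : 0 < M := by omega
  have hN0 : 0 < d * M := Nat.mul_pos hd hM0
  set φ := algebraMap K K' with hφ
  have hφ0 : ∀ {z : K}, z ≠ 0 → φ z ≠ 0 := fun h => (_root_.map_ne_zero φ).2 h
  have hϖ0 : ϖ ≠ 0 := by
    rintro rfl
    rw [zero_pow hN0.ne'] at hϖ
    exact hφ0 hπ0 hϖ.symm
  have hxγ0 : mo x γ0 ≠ 0 := mo_ne_zero hx0 _
  set ω : K' := ϖ ^ M * (φ (mo x γ0))⁻¹ with hω
  have hωd : ω ^ d = φ u := by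
    rw [hω, mul_pow, ← pow_mul, mul_comm M d, hϖ, hγ, inv_pow, ← map_pow, ← hmoγ, map_mul,
      mul_assoc, mul_inv_cancel₀ (hφ0 (mo_ne_zero hx0 _)), mul_one]
  have hω0 : ω ≠ 0 := mul_ne_zero (pow_ne_zero _ hϖ0) (inv_ne_zero (hφ0 hxγ0))
  have hωV : V'.valuation ω = 1 := by
    have h1 : V'.valuation ω ^ d = 1 := by
      rw [← map_pow, hωd, hφ, ← comap_one, hV']
      exact hvu
    exact (pow_eq_one_iff.1 h1).resolve_right hd.ne'
  have hωu : ∀ n : ℤ, V'.valuation (ω ^ n) = 1 := fun n => by rw [map_zpow₀, hωV, one_zpow]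
  set x' : Fin s → K' := fun i => ω ^ c i * φ (x i) with hx'
  have hϖM : ϖ ^ M = mo x' γ0 := by
    rw [hx', mo_mul_fun, mo_zpow_const hω0, hc, zpow_one, ← map_mo, hω, mul_assoc,
      inv_mul_cancel₀ (hφ0 hxγ0), mul_one]
  obtain ⟨m, A, hm0, hmV, hmV', hxm, hA, hprod, hmm⟩ := hN1 M (by omega) hM0 hDM V' hV' x'
    (fun i => ⟨ω ^ c i, zpow_ne_zero _ hω0, ((val_one_iff _ _).1 (hωu _)).2.1,
      ((val_one_iff _ _).1 (hωu _)).2.2, rfl⟩) ϖ hϖM
  have hs : 0 < s := by
    rw [Nat.pos_iff_ne_zero]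
    rintro rfl
    rw [Finset.univ_eq_empty, Finset.sum_empty] at hc
    exact zero_ne_one hc
  -- the local ring
  set C : Subring K := Subring.closure ((ch O W w : Set K) ∪ T) with hC
  have hregC : RegP (V'.comap (algebraMap K K')).toSubring
      (lo (V'.comap (algebraMap K K')).toSubring C) x := by
    rw [hV']
    exact hSt.reg
  have hCV : C ≤ (V'.comap (algebraMap K K')).toSubring := (le_lo _ _).trans hregC.PA
  have hCK : ∀ a : K, ∃ b ∈ C, b ≠ 0 ∧ a * b ∈ C := by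
    intro a
    obtain ⟨a, ha, b, hb, hb0, rfl⟩ := hM.2 a
    refine ⟨b, Subring.subset_closure (Or.inl hb), hb0, ?_⟩
    rw [mul_assoc, inv_mul_cancel₀ hb0, mul_one]
    exact Subring.subset_closure (Or.inl ha)
  have hϖm : ϖ ∈ Subfield.closure (Set.range (algebraMap K K') ∪ Set.range m) := by
    rw [← hprod]
    exact prod_mem fun j _ => Subfield.subset_closure (Or.inr ⟨j, rfl⟩)
  have halg : Algebra.IsAlgebraic K K' := by
    have hint : IsIntegral K ϖ := by
      refine ⟨X ^ (d * M) - Polynomial.C π, monic_X_pow_sub_C _ hN0.ne', ?_⟩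
      rw [eval₂_sub, eval₂_X_pow, eval₂_C, hϖ, sub_self]
    refine ⟨fun z => ?_⟩
    obtain ⟨f, rfl⟩ := gen_alg hint (hgen z)
    exact (adjoin_le_integralClosure hint (aeval_mem_adjoin_singleton K ϖ)).isAlgebraic
  have hP := ss_reg9 p_tor6 V' C hCV hCK x hregC (fun i h => hxV i (by rw [← hV']; exact h)) ω d
    hd u hu0 (by rw [hV']; exact hu1) (by rw [hV']; exact hu2) hωd (fun q hq hqd hqV a ha => by
      rw [← comap_one, hV']
      refine hvd q hq hqd ?_ a (by rw [hV'] at ha; exact ha)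
      rw [← map_natCast (algebraMap K K'), ← comap_lt, hV'] at hqV
      exact hqV) c m A hm0 hmV hmV'
    (fun i => by rw [← hxm i, hx']; exact mul_comm _ _) hA (fun z => by
      have h1 : Subfield.closure (Set.range (algebraMap K K') ∪ {ϖ}) ≤
          Subfield.closure (Set.range (algebraMap K K') ∪ Set.range m) := by
        rw [Subfield.closure_le]
        rintro z (hz | hz)
        · exact Subfield.subset_closure (Or.inl hz)
        · rw [Set.mem_singleton_iff.1 hz]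
          exact hϖm
      exact h1 (hgen z)) halg
  -- the model
  set O' : Subring K' := Orm O ϖ with hO'
  set A' : Subring K' := ch O' (φ '' W) (φ w) with hA'
  set T' : Set K' := φ '' T ∪ ({ω} ∪ Set.range m) with hT'
  have hϖO : ϖ ∈ O' := Subring.subset_closure (Or.inr rfl)
  have hOA : ∀ z ∈ O', z ∈ A' := fun z hz => Subring.subset_closure (Or.inl hz)
  have hAA : ∀ a ∈ ch O W w, φ a ∈ A' := by
    have h1 : ch O W w ≤ A'.comap φ := by
      rw [Subring.closure_le]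
      rintro z (hz | ⟨v, hv, rfl⟩)
      · exact hOA _ (Subring.subset_closure (Or.inl ⟨z, hz, rfl⟩))
      · refine Subring.subset_closure (Or.inr ⟨φ v, ⟨v, hv, rfl⟩, ?_⟩)
        rw [map_div₀]
    exact fun a ha => h1 ha
  have hcl : Subring.closure ((A' : Set K') ∪ T') =
      Subring.closure ((C.map (algebraMap K K') : Set K') ∪ ({ω} ∪ Set.range m)) := by
    have h1 : ∀ a ∈ C, φ a ∈ Subring.closure ((A' : Set K') ∪ T') := by
      have h2 : C ≤ (Subring.closure ((A' : Set K') ∪ T')).comap φ := by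
        rw [hC, Subring.closure_le]
        rintro z (hz | hz)
        · exact Subring.subset_closure (Or.inl (hAA z hz))
        · exact Subring.subset_closure (Or.inr (Or.inl ⟨z, hz, rfl⟩))
      exact fun a ha => h2 ha
    have h3 : ∀ a ∈ C, φ a ∈ Subring.closure ((C.map (algebraMap K K') : Set K') ∪
        ({ω} ∪ Set.range m)) := fun a ha => Subring.subset_closure (Or.inl ⟨a, ha, rfl⟩)
    have h4 : ϖ ∈ Subring.closure ((C.map (algebraMap K K') : Set K') ∪
        ({ω} ∪ Set.range m)) := by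
      rw [← hprod]
      exact Subring.prod_mem _ fun j _ => Subring.subset_closure (Or.inr (Or.inr ⟨j, rfl⟩))
    apply le_antisymm
    · rw [Subring.closure_le]
      rintro z (hz | ⟨a, ha, rfl⟩ | hz)
      · refine (?_ : A' ≤ _) hz
        rw [hA', Subring.closure_le]
        rintro z (hz | ⟨_, ⟨v, hv, rfl⟩, rfl⟩)
        · refine (?_ : O' ≤ _) hz
          rw [hO', Subring.closure_le]
          rintro z (⟨a, ha, rfl⟩ | hz)
          · exact h3 a (Subring.subset_closure (Or.inl (Subring.subset_closure (Or.inl ha))))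
          · rw [Set.mem_singleton_iff.1 hz]
            exact h4
        · rw [← map_div₀]
          exact h3 _ (Subring.subset_closure (Or.inl (Subring.subset_closure
            (Or.inr ⟨v, hv, rfl⟩))))
      · exact h3 a (Subring.subset_closure (Or.inr ha))
      · exact Subring.subset_closure (Or.inr hz)
    · rw [Subring.closure_le]
      rintro z (⟨a, ha, rfl⟩ | hz)
      · exact h1 a ha
      · exact Subring.subset_closure (Or.inr (Or.inr hz))
  have hP' : RegP V'.toSubring (PP V' A' T') m := by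
    unfold PP
    rw [hcl]
    exact hP
  have hclV : Subring.closure ((A' : Set K') ∪ T') ≤ V'.toSubring := (le_lo _ _).trans hP'.PA
  have hωP : ω ∈ PP V' A' T' :=
    le_lo _ _ (Subring.subset_closure (Or.inr (Or.inr (Or.inl rfl))))
  have hωP' : ω⁻¹ ∈ PP V' A' T' :=
    inv_mem_lo hclV hωP hω0 ((val_one_iff _ _).1 hωV).2.2
  have hCP : ∀ a ∈ PP V (ch O W w) T, φ a ∈ PP V' A' T' := by
    intro a ha
    have h1 : φ a ∈ lo V'.toSubring (C.map (algebraMap K K')) := by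
      rw [lo_map (algebraMap K K') (A' := (V'.comap (algebraMap K K')).toSubring)
        (fun e => Iff.rfl)]
      rw [hV']
      exact ⟨a, ha, rfl⟩
    have h2 : lo V'.toSubring (C.map (algebraMap K K')) ≤ PP V' A' T' := by
      unfold PP
      rw [hcl]
      exact lo_mono fun z hz => Subring.subset_closure (Or.inl hz)
    exact h2 h1
  -- monomials
  have hpω : PMon (PP V' A' T') m ω := ⟨ω, hω0, hωP, hωP', 0, by rw [mo_zero, mul_one]⟩
  have hpx : ∀ i, PMon (PP V' A' T') m (φ (x i)) := by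
    intro i
    have h1 : φ (x i) = (ω ^ c i)⁻¹ * mo m (fun j => (A i j : ℤ)) := by
      have h2 := hxm i
      have h3 : mo m (fun j => (A i j : ℤ)) = ∏ j, m j ^ A i j := by
        unfold mo
        exact Finset.prod_congr rfl fun j _ => zpow_natCast _ _
      rw [h3, ← h2, hx']
      simp only
      rw [← mul_assoc, inv_mul_cancel₀ (zpow_ne_zero _ hω0), one_mul]
    rw [h1]
    exact (pmon_zpow hm0 hpω _).inv.mul hm0 ⟨1, one_ne_zero, Subring.one_mem _, by
      rw [inv_one]; exact Subring.one_mem _, _, (one_mul _).symm⟩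
  have hmo1 : mo m (fun _ => 1) = ϖ := by
    rw [← hprod]
    unfold mo
    exact Finset.prod_congr rfl fun j _ => zpow_one _
  have hpϖ : PMon (PP V' A' T') m ϖ := ⟨1, one_ne_zero, Subring.one_mem _, by
    rw [inv_one]; exact Subring.one_mem _, fun _ => 1, by rw [one_mul, hmo1]⟩
  obtain ⟨β, hβ, hβm, hβT, hβx⟩ := hSt.den
  have hpβ : PMon (PP V' A' T') m (φ β) := by
    obtain ⟨u1, a0, a1, a2, δ, ha⟩ := hβm
    rw [ha, map_mul, map_mo]
    refine PMon.mul hm0 ⟨φ u1, hφ0 a0, hCP _ a1, ?_, 0, by rw [mo_zero, mul_one]⟩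
      (pmon_mo hm0 hpx δ)
    rw [← map_inv₀]
    exact hCP _ a2
  have hfx : ∀ i, Fra A' (PP V' A' T') m (φ (x i)) := fun i =>
    ⟨hpx i, φ β, hAA _ hβ, hpβ, by rw [← map_mul]; exact hAA _ (hβx i)⟩
  have hfϖ : Fra A' (PP V' A' T') m ϖ := ⟨hpϖ, 1, A'.one_mem, PMon.one, by
    rw [one_mul]; exact hOA _ hϖO⟩
  have hfω : Fra A' (PP V' A' T') m ω := by
    rw [hω, map_mo]
    exact (hfϖ.pow hm0 M).mul hm0 ((Fra.mo hm0 (fun i => hφ0 (hx0 i)) hfx γ0).inv hm0
      (mo_ne_zero (fun i => hφ0 (hx0 i)) _))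
  have hx'0 : ∀ i, x' i ≠ 0 := fun i => mul_ne_zero (zpow_ne_zero _ hω0) (hφ0 (hx0 i))
  have hfx' : ∀ i, Fra A' (PP V' A' T') m (x' i) := fun i =>
    (hfω.zpow hm0 hω0 (c i)).mul hm0 (hfx i)
  have hfm : ∀ j, Fra A' (PP V' A' T') m (m j) := by
    intro j
    obtain ⟨n, g, h⟩ := hmm j
    rw [h]
    exact (hfϖ.zpow hm0 hϖ0 n).mul hm0 (Fra.mo hm0 hx'0 hfx' g)
  have hT'f : T'.Finite := (hSt.fin.image _).union
    ((Set.finite_singleton _).union (Set.finite_range _))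
  obtain ⟨δ, hδ, hδm, hδT⟩ := exists_den (A := A') (P := PP V' A' T') hm0 hT'f (by
    rintro z (⟨a, ha, rfl⟩ | hz | ⟨j, rfl⟩)
    · exact ⟨φ β, hAA _ hβ, hpβ, by rw [← map_mul]; exact hAA _ (hβT a ha)⟩
    · rw [Set.mem_singleton_iff.1 hz]
      exact hfω.2
    · exact (hfm j).2)
  exact ⟨T', s, m, hs, ⟨hT'f, hP', δ, hδ, hδm, hδT, fun j => hδT _ (Or.inr (Or.inr ⟨j, rfl⟩))⟩,
    hmV', hprod⟩

end main

section semi

variable {K : Type u} [Field K]

/-- Semistable models. -/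
theorem ss_main9 (V : ValuationSubring K) (O : Subring K) (hO : ∀ a ∈ O, a ∈ V) {W : Set K}
    (hWf : W.Finite) {w : K} (hw : w ∈ W) (hw0 : w ≠ 0) (hwV : ∀ z ∈ W, z / w ∈ V)
    (hM : Mod V (ch O W w)) (π : K) (hπ0 : π ≠ 0) (hπ1 : V.valuation π < 1)
    {T : Set K} {s : ℕ} {x : Fin s → K} (hSt₀ : St V (ch O W w) T x) (hxV : ∀ i, (x i)⁻¹ ∉ V)
    (hind : ∀ δ : Fin s → ℤ, V.valuation (mo x δ) = 1 → δ = 0)
    (hmon : PMon (PP V (ch O W w) T) x π)
    (htn : ∀ i, ∃ n : ℕ, V.valuation π ^ n ≤ V.valuation (x i))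
    (hdiv : ∀ q : ℕ, q.Prime → V.valuation (q : K) < 1 → ∀ a ∈ PP V (ch O W w) T,
      ∀ δ : Fin s → ℤ, V.valuation π ≤ V.valuation (π - (a * mo x δ) ^ q)) :
    ∃ (D N₀ : ℕ) (cc : Fin s → ℤ), 0 < D ∧
      (∀ n : ℤ, V.valuation π ≤ V.valuation (π / mo x cc ^ D) ^ n) ∧ ∀ N : ℕ, N₀ ≤ N → D ∣ N →
      ∀ {K' : Type u} [Field K'] [Algebra K K'] (V' : ValuationSubring K') (ϖ : K'),
      V'.comap (algebraMap K K') = V → ϖ ^ N = algebraMap K K' π →
      (∀ z : K', z ∈ Subfield.closure (Set.range (algebraMap K K') ∪ {ϖ})) →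
      ∃ (Y : Set K') (d' n' : ℕ), Y.Finite ∧
        Y ⊆ ((Submodule.span (Orm O ϖ) (algebraMap K K' '' W)) ^ d' :
          Submodule (Orm O ϖ) K') ∧
        (∀ z ∈ (Submodule.span (Orm O ϖ) (algebraMap K K' '' W)) ^ d',
          ϖ ^ n' * z ∈ Submodule.span (Orm O ϖ) Y) ∧
        ∃ w' ∈ bu (algebraMap K K' '' W) Y, w' ≠ 0 ∧
          (∀ z ∈ bu (algebraMap K K' '' W) Y, z / w' ∈ V') ∧
          ∃ P : Subring K',
            lo V'.toSubring (ch (Orm O ϖ) (bu (algebraMap K K' '' W) Y) w') = P ∧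
            ∃ (_ : IsRegularLocalRing P) (n : ℕ) (y : Fin n → P) (S : Finset (Fin n)),
              Ideal.span (Set.range y) = maximalIdeal P ∧ ringKrullDim P = n ∧
              S.Nonempty ∧ ϖ = ∏ i ∈ S, (y i : K') := by
  obtain ⟨D, N₀, cc, hD, hζ', hN⟩ := ss_stage9 V O hO hWf hw hw0 hwV hM π hπ0 hπ1 hSt₀ hxV hind
    hmon htn hdiv
  refine ⟨D, N₀, cc, hD, hζ', ?_⟩
  intro N hN0 hdN K' _ _ V' ϖ hV' hϖ hgen
  obtain ⟨T', s', m, hs, hSt, hmV, hprod⟩ := hN N hN0 hdN V' ϖ hV' hϖ hgen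
  have hmem : ∀ z : K, algebraMap K K' z ∈ V' ↔ z ∈ V := by
    intro z
    have h1 : algebraMap K K' z ∈ V' ↔ z ∈ V'.comap (algebraMap K K') := Iff.rfl
    rw [h1, hV']
  have hϖV : ϖ ∈ V' := by
    rw [← hprod]
    exact prod_mem fun j _ => hSt.reg.PA (hSt.reg.mem j)
  have hO' : ∀ a ∈ Orm O ϖ, a ∈ V' := by
    have h1 : Orm O ϖ ≤ V'.toSubring := by
      rw [Subring.closure_le]
      rintro z (⟨a, ha, rfl⟩ | hz)
      · exact (hmem a).2 (hO a ha)
      · rw [Set.mem_singleton_iff.1 hz]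
        exact hϖV
    exact fun a ha => h1 ha
  have hmo1 : mo m (fun _ => 1) = ϖ := by
    rw [← hprod]
    unfold mo
    exact Finset.prod_congr rfl fun j _ => zpow_one _
  obtain ⟨Y, d', n', h1, h2, h3, w', h4, h5, h6, h7⟩ :=
    model_stage V' (Orm O ϖ) hO' (hWf.image _) (w := algebraMap K K' w) ⟨w, hw, rfl⟩
      ((_root_.map_ne_zero _).2 hw0) (by
        rintro _ ⟨z, hz, rfl⟩
        rw [← map_div₀]
        exact (hmem _).2 (hwV z hz)) (p := ϖ) (Subring.subset_closure (Or.inr rfl)) hSt (u := 1)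
      (η := fun _ => 1) (Subring.one_mem _) (by rw [inv_one]; exact Subring.one_mem _)
      one_ne_zero (by rw [one_mul, hmo1]) (fun _ => one_pos)
  refine ⟨Y, d', n', h1, h2, h3, w', h4, h5, h6, _, h7, ?_⟩
  obtain ⟨hr, n, y, S, e1, e2, e3, e4⟩ := semi_of_stage V' hs hSt hmV
  exact ⟨hr, n, y, S, e1, e2, e3, hprod.symm.trans e4⟩

end semi

end Pool.Agent.W5h94.WP
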